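import Pool.Agent.Helper92_ED.Fn

/-!
# Tangent vectors of polynomial curves
-/

open MvPolynomial

namespace Helper92_ED

open Helper73_ED

noncomputable section

/-- chain rule -/
theorem derivative_aeval {n : ℕ} (γ : Fin n → Polynomial ℂ) (F : MvPolynomial (Fin n) ℂ) :
    Polynomial.derivative (aeval γ F) =
      ∑ i, aeval γ (pderiv i F) * Polynomial.derivative (γ i) := by
  induction F using MvPolynomial.induction_on with
  | C a => simp
  | add p q hp hq =>
    simp only [map_add, hp, hq, add_mul, Finset.sum_add_distrib]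
  | mul_X p k hp =>
    simp only [map_mul, aeval_X, Polynomial.derivative_mul, hp, Derivation.leibniz, smul_eq_mul,
      map_add, add_mul, Finset.sum_add_distrib]
    rw [add_comm]
    congr 1
    · rw [Finset.sum_eq_single k]
      · simp
      · intro i _ hi
        rw [pderiv_X_of_ne (Ne.symm hi)]
        simp
      · simp
    · rw [Finset.sum_mul]
      exact Finset.sum_congr rfl fun i _ => by ring

theorem eval_aeval {n : ℕ} (γ : Fin n → Polynomial ℂ) (F : MvPolynomial (Fin n) ℂ) (e : ℂ) :
    (aeval γ F).eval e = eval (fun i => (γ i).eval e) F := by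
  induction F using MvPolynomial.induction_on with
  | C a => simp
  | add p q hp hq => rw [map_add, Polynomial.eval_add, hp, hq, map_add]
  | mul_X p k hp => rw [map_mul, Polynomial.eval_mul, hp, aeval_X, map_mul, eval_X]

/-- a polynomial curve in `S` gives a tangent vector -/
theorem curve_tangent {n : ℕ} (S : Set (Fin n → ℂ)) (γ : Fin n → Polynomial ℂ)
    (hγ : ∀ e : ℂ, (fun i => (γ i).eval e) ∈ S) :
    (fun i => (Polynomial.derivative (γ i)).eval 0) ∈
      tangentSpace (zclosure S) (fun i => (γ i).eval 0) := by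
  intro F hF
  have h0 : aeval γ F = 0 := by
    apply Polynomial.funext
    intro e
    rw [eval_aeval, Polynomial.eval_zero]
    exact hF _ (fun G hG => hG _ (hγ e))
  have h1 := derivative_aeval γ F
  rw [h0, Polynomial.derivative_zero] at h1
  have h2 := congrArg (fun p => Polynomial.eval (0 : ℂ) p) h1
  simp only [Polynomial.eval_zero, Polynomial.eval_finsetSum, Polynomial.eval_mul,
    eval_aeval] at h2
  exact h2.symm

/-- restriction of a polynomial to a line: the differential -/
theorem differential_eq {n : ℕ} (F : MvPolynomial (Fin n) ℂ) (x v : Fin n → ℂ) :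
    ∑ i, eval x (pderiv i F) * v i = (Polynomial.derivative
      (aeval (fun i => Polynomial.C (x i) + Polynomial.C (v i) * Polynomial.X) F)).eval 0 := by
  rw [derivative_aeval, Polynomial.eval_finsetSum]
  apply Finset.sum_congr rfl
  intro i _
  rw [Polynomial.eval_mul, eval_aeval]
  simp

/-- a multiple of a finite moment vector is a power -/
theorem smul_mom (d : ℕ) (hd : 1 ≤ d) (α s : ℂ) :
    ∃ z w : ℂ, α • mom d 0 s = pw d z w := by
  obtain ⟨a, ha⟩ := IsAlgClosed.exists_pow_nat_eq α (n := d) (by omega)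
  refine ⟨a * s, a, ?_⟩
  funext j
  have h1 : a ^ d = a ^ (d - (j : ℕ)) * a ^ (j : ℕ) := by
    rw [← pow_add]; congr 1; have := j.2; omega
  simp only [Pi.smul_apply, smul_eq_mul, mom, pw, Nat.choose_zero_right, Nat.cast_one, one_mul,
    Nat.sub_zero, mul_pow]
  rw [← ha, h1]
  ring

/-- a multiple of the vector at infinity is a power -/
theorem smul_dl (d : ℕ) (hd : 1 ≤ d) (α : ℂ) :
    ∃ z w : ℂ, α • dl d 0 = pw d z w := by
  obtain ⟨a, ha⟩ := IsAlgClosed.exists_pow_nat_eq α (n := d) (by omega)
  refine ⟨a, 0, ?_⟩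
  funext j
  simp only [Pi.smul_apply, smul_eq_mul, dl, pw]
  by_cases hj : (j : ℕ) = 0
  · simp [hj, ha]
  · simp [hj]

theorem smul_add_smul_mem (d : ℕ) (hd : 1 ≤ d) (α β s t : ℂ) :
    α • mom d 0 s + β • mom d 0 t ∈ secY d := by
  obtain ⟨z, w, h⟩ := smul_mom d hd α s
  obtain ⟨z', w', h'⟩ := smul_mom d hd β t
  exact ⟨z, w, z', w', by rw [h, h']⟩

theorem smul_add_smul_dl_mem (d : ℕ) (hd : 1 ≤ d) (α β s : ℂ) :
    α • mom d 0 s + β • dl d 0 ∈ secY d := by
  obtain ⟨z, w, h⟩ := smul_mom d hd α s
  obtain ⟨z', w', h'⟩ := smul_dl d hd β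
  exact ⟨z, w, z', w', by rw [h, h']⟩

end

end Helper92_ED
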