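import Pool.Agent.Helper73_ED.Statements

/-!
# Vectors as functionals on polynomials of degree `≤ d`, curves and tangent vectors
-/

open MvPolynomial

namespace Helper92_ED

open Helper73_ED

noncomputable section

/-- the functional attached to `y`, `y(φ) = ∑ y_j coeff_{d-j} φ` -/
def fn (d : ℕ) (y : Fin (d + 1) → ℂ) : Polynomial ℂ →ₗ[ℂ] ℂ :=
  ∑ j : Fin (d + 1), y j • Polynomial.lcoeff ℂ (d - (j : ℕ))

theorem fn_apply (d : ℕ) (y : Fin (d + 1) → ℂ) (φ : Polynomial ℂ) :
    fn d y φ = ∑ j : Fin (d + 1), y j * φ.coeff (d - (j : ℕ)) := by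
  simp [fn, LinearMap.sum_apply]

theorem fn_add (d : ℕ) (y z : Fin (d + 1) → ℂ) (φ : Polynomial ℂ) :
    fn d (y + z) φ = fn d y φ + fn d z φ := by
  simp only [fn_apply, Pi.add_apply, add_mul, Finset.sum_add_distrib]

theorem fn_smul (d : ℕ) (c : ℂ) (y : Fin (d + 1) → ℂ) (φ : Polynomial ℂ) :
    fn d (c • y) φ = c * fn d y φ := by
  simp only [fn_apply, Pi.smul_apply, smul_eq_mul, Finset.mul_sum, mul_assoc]

theorem fn_sub (d : ℕ) (y z : Fin (d + 1) → ℂ) (φ : Polynomial ℂ) :
    fn d (y - z) φ = fn d y φ - fn d z φ := by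
  simp only [fn_apply, Pi.sub_apply, sub_mul, Finset.sum_sub_distrib]

theorem sum_rev (d : ℕ) (g : ℕ → ℂ) :
    ∑ j : Fin (d + 1), g (d - (j : ℕ)) = ∑ m ∈ Finset.range (d + 1), g m := by
  rw [← Finset.sum_range_reflect, ← Fin.sum_univ_eq_sum_range]
  simp

theorem fn_X_pow (d : ℕ) (y : Fin (d + 1) → ℂ) (j : Fin (d + 1)) :
    fn d y (Polynomial.X ^ (d - (j : ℕ))) = y j := by
  rw [fn_apply, Finset.sum_eq_single j]
  · simp
  · intro k _ hk
    rw [Polynomial.coeff_X_pow, if_neg, mul_zero]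
    intro h
    apply hk
    ext
    have := k.2
    have := j.2
    omega
  · simp

/-- values of the Taylor coefficient functionals -/
theorem fn_mom (d k : ℕ) (s : ℂ) (φ : Polynomial ℂ) (hφ : φ.natDegree ≤ d) :
    fn d (mom d k s) φ = (Polynomial.hasseDeriv k φ).eval s := by
  rw [fn_apply, Polynomial.hasseDeriv_apply, Polynomial.sum_over_range' _ _ (d + 1) (by omega)]
  · rw [Polynomial.eval_finsetSum, ← sum_rev d (fun n => Polynomial.eval s
      (Polynomial.monomial (n - k) ((n.choose k : ℂ) * φ.coeff n)))]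
    apply Finset.sum_congr rfl
    intro j _
    simp only [mom, Polynomial.eval_monomial]
    ring
  · intro n
    simp

theorem fn_mom_zero (d : ℕ) (s : ℂ) (φ : Polynomial ℂ) (hφ : φ.natDegree ≤ d) :
    fn d (mom d 0 s) φ = φ.eval s := by
  rw [fn_mom d 0 s φ hφ, Polynomial.hasseDeriv_zero']

theorem fn_mom_one (d : ℕ) (s : ℂ) (φ : Polynomial ℂ) (hφ : φ.natDegree ≤ d) :
    fn d (mom d 1 s) φ = (Polynomial.derivative φ).eval s := by
  rw [fn_mom d 1 s φ hφ, Polynomial.hasseDeriv_one']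

theorem fn_dl (d i : ℕ) (hi : i ≤ d) (φ : Polynomial ℂ) :
    fn d (dl d i) φ = φ.coeff (d - i) := by
  rw [fn_apply, Finset.sum_eq_single (⟨i, by omega⟩ : Fin (d + 1))]
  · simp [dl]
  · intro k _ hk
    have : (k : ℕ) ≠ i := by
      intro h
      apply hk
      ext
      exact h
    simp [dl, this]
  · simp

/-- extensionality: a vector is determined by its functional on degree `≤ d` -/
theorem fn_ext (d : ℕ) (y z : Fin (d + 1) → ℂ)
    (h : ∀ φ : Polynomial ℂ, φ.natDegree ≤ d → fn d y φ = fn d z φ) : y = z := by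
  funext j
  have := h (Polynomial.X ^ (d - (j : ℕ))) (by
    rw [Polynomial.natDegree_X_pow]; omega)
  rwa [fn_X_pow, fn_X_pow] at this

end

end Helper92_ED
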