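import Pool.Agent.Helper92_ED.Fn

/-!
# Module T2: isotropic coordinates
-/

namespace Helper92_ED

open Helper73_ED Polynomial

noncomputable section

/-- generating polynomial of the `j`-th coordinate -/
def genP (d j : ℕ) : ℂ[X] :=
  (1 + C Complex.I * X) ^ (d - j) * (1 - C Complex.I * X) ^ j

theorem natDegree_one_add : (1 + C Complex.I * X : ℂ[X]).natDegree ≤ 1 := by
  compute_degree

theorem natDegree_one_sub : (1 - C Complex.I * X : ℂ[X]).natDegree ≤ 1 := by
  compute_degree

theorem natDegree_genP (d j : ℕ) (hj : j ≤ d) : (genP d j).natDegree ≤ d := by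
  refine natDegree_mul_le.trans ?_
  have h1 : ((1 + C Complex.I * X : ℂ[X]) ^ (d - j)).natDegree ≤ d - j := by
    refine natDegree_pow_le.trans ?_
    have := Nat.mul_le_mul_left (d - j) natDegree_one_add
    simpa using this
  have h2 : ((1 - C Complex.I * X : ℂ[X]) ^ j).natDegree ≤ j := by
    refine natDegree_pow_le.trans ?_
    have := Nat.mul_le_mul_left j natDegree_one_sub
    simpa using this
  omega

/-- homogenised identity, `a ≠ 0` -/
theorem genP_homog (d j : ℕ) (hj : j ≤ d) (a b : ℂ) (ha : a ≠ 0) :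
    ∑ i : Fin (d + 1), (genP d j).coeff i * a ^ (d - (i : ℕ)) * b ^ (i : ℕ) =
      (a + Complex.I * b) ^ (d - j) * (a - Complex.I * b) ^ j := by
  have h1 : (genP d j).eval (b / a) =
      ∑ i ∈ Finset.range (d + 1), (genP d j).coeff i * (b / a) ^ i :=
    eval_eq_sum_range' (Nat.lt_succ_of_le (natDegree_genP d j hj)) _
  have h2 : (genP d j).eval (b / a) =
      (1 + Complex.I * (b / a)) ^ (d - j) * (1 - Complex.I * (b / a)) ^ j := by
    simp [genP]
  have h3 : a ^ d * (genP d j).eval (b / a) =
      (a + Complex.I * b) ^ (d - j) * (a - Complex.I * b) ^ j := by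
    rw [h2]
    have e1 : a ^ d = a ^ (d - j) * a ^ j := by rw [← pow_add]; congr 1; omega
    rw [e1, show a ^ (d - j) * a ^ j * ((1 + Complex.I * (b / a)) ^ (d - j) *
        (1 - Complex.I * (b / a)) ^ j) = (a * (1 + Complex.I * (b / a))) ^ (d - j) *
        (a * (1 - Complex.I * (b / a))) ^ j by rw [mul_pow, mul_pow]; ring]
    congr 2 <;> field_simp
  rw [← h3, h1, Finset.mul_sum, Fin.sum_univ_eq_sum_range
    (fun i => (genP d j).coeff i * a ^ (d - i) * b ^ i)]
  apply Finset.sum_congr rfl
  intro i hi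
  have hi' : i ≤ d := Nat.lt_succ_iff.mp (Finset.mem_range.mp hi)
  have e1 : a ^ d = a ^ (d - i) * a ^ i := by rw [← pow_add]; congr 1; omega
  rw [e1, div_pow]
  field_simp

theorem genP_homog' (d j : ℕ) (hj : j ≤ d) (a b : ℂ) :
    ∑ i : Fin (d + 1), (genP d j).coeff i * a ^ (d - (i : ℕ)) * b ^ (i : ℕ) =
      (a + Complex.I * b) ^ (d - j) * (a - Complex.I * b) ^ j := by
  -- polynomial identity in `a`
  set P : ℂ[X] := ∑ i : Fin (d + 1), C ((genP d j).coeff i) * X ^ (d - (i : ℕ)) *
    C b ^ (i : ℕ) with hP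
  set Q : ℂ[X] := (X + C (Complex.I * b)) ^ (d - j) * (X - C (Complex.I * b)) ^ j with hQ
  have hPe : ∀ a, P.eval a = ∑ i : Fin (d + 1), (genP d j).coeff i * a ^ (d - (i : ℕ)) *
      b ^ (i : ℕ) := by
    intro a
    simp [hP, eval_finsetSum]
  have hQe : ∀ a, Q.eval a = (a + Complex.I * b) ^ (d - j) * (a - Complex.I * b) ^ j := by
    intro a
    simp [hQ]
  have hPQ : (P - Q) * X = 0 := by
    apply Polynomial.funext
    intro a
    by_cases ha : a = 0
    · simp [ha]
    · rw [eval_mul, eval_sub, hPe, hQe, genP_homog d j hj a b ha]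
      simp
  have hPQ' : P = Q := by
    rcases mul_eq_zero.mp hPQ with h | h
    · exact sub_eq_zero.mp h
    · exact absurd h X_ne_zero
  rw [← hPe, ← hQe, hPQ']

/-- the linear map -/
def isoL (d : ℕ) : (Fin (d + 1) → ℂ) →ₗ[ℂ] (Fin (d + 1) → ℂ) :=
  Matrix.toLin' (Matrix.of fun (j i : Fin (d + 1)) =>
    (genP d (j : ℕ)).coeff (i : ℕ) / (d.choose (i : ℕ) : ℂ))

theorem isoL_apply (d : ℕ) (c : Fin (d + 1) → ℂ) (j : Fin (d + 1)) :
    isoL d c j = ∑ i : Fin (d + 1), (genP d (j : ℕ)).coeff (i : ℕ) /
      (d.choose (i : ℕ) : ℂ) * c i := by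
  simp [isoL, Matrix.toLin'_apply, Matrix.mulVec, dotProduct]

theorem choose_ne (d : ℕ) (i : Fin (d + 1)) : (d.choose (i : ℕ) : ℂ) ≠ 0 := by
  have : 0 < d.choose (i : ℕ) := Nat.choose_pos (Nat.lt_succ_iff.mp i.2)
  exact_mod_cast this.ne'

theorem isoL_powerForm (d : ℕ) (a b : ℂ) :
    isoL d (powerForm d a b) = pw d (a + Complex.I * b) (a - Complex.I * b) := by
  funext j
  rw [isoL_apply, pw, ← genP_homog' d j (Nat.lt_succ_iff.mp j.2) a b]
  apply Finset.sum_congr rfl
  intro i _
  have := choose_ne d i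
  simp only [powerForm]
  field_simp

theorem frob_powers (d : ℕ) (a b a' b' : ℂ) :
    frobenius d (powerForm d a b) (powerForm d a' b') = (a * a' + b * b') ^ d := by
  rw [Helper73_ED.frobenius, add_comm (a * a'), add_pow, Finset.sum_range]
  apply Finset.sum_congr rfl
  intro i _
  have := choose_ne d i
  simp only [powerForm, mul_pow]
  field_simp

theorem BY_powers (d : ℕ) (z w z' w' : ℂ) :
    BY d (pw d z w) (pw d z' w') = (z * w' + w * z') ^ d := by
  rw [BY, add_comm (z * w'), add_pow, Finset.sum_range]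
  apply Finset.sum_congr rfl
  intro i _
  have h1 : d - ((Fin.rev i : Fin (d + 1)) : ℕ) = (i : ℕ) := by
    rw [Fin.val_rev]; have := i.2; omega
  have h2 : ((Fin.rev i : Fin (d + 1)) : ℕ) = d - (i : ℕ) := by
    rw [Fin.val_rev]; have := i.2; omega
  simp only [pw, mul_pow]
  rw [h1, h2]
  ring

/-- a linear functional killing all powers is zero -/
theorem functional_zero (d : ℕ) (ℓ : (Fin (d + 1) → ℂ) →ₗ[ℂ] ℂ)
    (h : ∀ a b : ℂ, ℓ (powerForm d a b) = 0) (f : Fin (d + 1) → ℂ) : ℓ f = 0 := by
  classical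
  have hexp : ∀ f : Fin (d + 1) → ℂ, ℓ f = ∑ i, f i * ℓ (Pi.single i 1) := by
    intro f
    conv_lhs => rw [pi_eq_sum_univ' f]
    rw [map_sum]
    apply Finset.sum_congr rfl
    intro i _
    rw [map_smul, smul_eq_mul]
  set P : ℂ[X] := ∑ i : Fin (d + 1), C ((d.choose (i : ℕ) : ℂ) * ℓ (Pi.single i 1)) *
    X ^ (i : ℕ) with hP
  have hP0 : P = 0 := by
    apply Polynomial.funext
    intro b
    have := h 1 b
    rw [hexp] at this
    rw [eval_zero, ← this, hP, eval_finsetSum]
    apply Finset.sum_congr rfl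
    intro i _
    simp [powerForm]
    ring
  have hcoef : ∀ i : Fin (d + 1), ℓ (Pi.single i 1) = 0 := by
    intro i
    have := congrArg (fun p => coeff p (i : ℕ)) hP0
    simp only [hP, finsetSum_coeff, coeff_C_mul, coeff_X_pow, coeff_zero] at this
    rw [Finset.sum_eq_single i] at this
    · simp only [if_true, mul_one] at this
      rcases mul_eq_zero.mp this with h1 | h1
      · exact absurd h1 (choose_ne d i)
      · exact h1
    · intro k _ hk
      rw [if_neg, mul_zero]
      intro h'
      exact hk (Fin.ext h'.symm)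
    · simp
  rw [hexp]
  exact Finset.sum_eq_zero fun i _ => by rw [hcoef, mul_zero]

/-- the defect form as a bilinear map -/
def defect (d : ℕ) : (Fin (d + 1) → ℂ) →ₗ[ℂ] (Fin (d + 1) → ℂ) →ₗ[ℂ] ℂ :=
  LinearMap.mk₂ ℂ (fun f g => BY d (isoL d f) (isoL d g) - 2 ^ d * frobenius d f g)
    (by
      intro f f' g
      simp only [BY, Helper73_ED.frobenius, map_add, Pi.add_apply, mul_add, add_mul, add_div,
        Finset.sum_add_distrib]
      ring)
    (by
      intro c f g
      simp only [BY, Helper73_ED.frobenius, map_smul, Pi.smul_apply, smul_eq_mul, mul_sub, Finset.mul_sum]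
      congr 1 <;> exact Finset.sum_congr rfl fun i _ => by ring)
    (by
      intro f g g'
      simp only [BY, Helper73_ED.frobenius, map_add, Pi.add_apply, mul_add, add_div,
        Finset.sum_add_distrib]
      ring)
    (by
      intro c f g
      simp only [BY, Helper73_ED.frobenius, map_smul, Pi.smul_apply, smul_eq_mul, mul_sub, Finset.mul_sum]
      congr 1 <;> exact Finset.sum_congr rfl fun i _ => by ring)

theorem defect_apply (d : ℕ) (f g : Fin (d + 1) → ℂ) :
    defect d f g = BY d (isoL d f) (isoL d g) - 2 ^ d * frobenius d f g := rfl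

theorem defect_powers (d : ℕ) (a b a' b' : ℂ) :
    defect d (powerForm d a b) (powerForm d a' b') = 0 := by
  rw [defect_apply, isoL_powerForm, isoL_powerForm, BY_powers, frob_powers, ← mul_pow,
    sub_eq_zero]
  congr 1
  linear_combination (-2 * b * b') * Complex.I_sq

theorem defect_zero (d : ℕ) (f g : Fin (d + 1) → ℂ) : defect d f g = 0 := by
  have h1 : ∀ a b, ∀ g, defect d (powerForm d a b) g = 0 := fun a b g =>
    functional_zero d (defect d (powerForm d a b)) (fun a' b' => defect_powers d a b a' b') g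
  have h2 := functional_zero d ((defect d).flip g) (fun a b => by
    rw [LinearMap.flip_apply]; exact h1 a b g) f
  simpa using h2

theorem isometry (d : ℕ) (f g : Fin (d + 1) → ℂ) :
    BY d (isoL d f) (isoL d g) = 2 ^ d * frobenius d f g :=
  sub_eq_zero.mp (defect_zero d f g)

theorem isoL_injective (d : ℕ) : Function.Injective (isoL d) := by
  classical
  rw [← LinearMap.ker_eq_bot, LinearMap.ker_eq_bot']
  intro f hf
  funext i
  have h1 := isometry d f (Pi.single i 1)
  rw [hf] at h1
  have h2 : BY d 0 (isoL d (Pi.single i 1)) = 0 := by simp [BY]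
  rw [h2] at h1
  have h3 : frobenius d f (Pi.single i 1) = 0 := by
    rcases mul_eq_zero.mp h1.symm with h | h
    · exact absurd h (pow_ne_zero _ two_ne_zero)
    · exact h
  rw [Helper73_ED.frobenius, Finset.sum_eq_single i] at h3
  · simp only [Pi.single_eq_same, mul_one, div_eq_zero_iff] at h3
    rcases h3 with h | h
    · exact h
    · exact absurd h (choose_ne d i)
  · intro k _ hk
    simp [hk]
  · simp

/-- **Module T2.** -/
theorem isometry_statement : IsometryStatement := by
  intro d
  refine ⟨LinearEquiv.ofInjectiveEndo (isoL d) (isoL_injective d), ?_, ?_⟩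
  · intro a b
    rw [LinearEquiv.coe_ofInjectiveEndo]
    exact isoL_powerForm d a b
  · intro f g
    rw [LinearEquiv.coe_ofInjectiveEndo]
    exact isometry d f g

end

end Helper92_ED
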