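import Pool.Agent.Helper92_ED.Curve

/-!
# Module G1: tangent space at a sum of two distinct finite powers
-/

namespace Helper92_ED

open Helper73_ED

noncomputable section

section Multi

open MvPolynomial

/-! ## Hankel determinants -/

/-- linear form attached to a polynomial of degree `≤ d` -/
def lf (d : ℕ) (φ : Polynomial ℂ) : MvPolynomial (Fin (d + 1)) ℂ :=
  ∑ j : Fin (d + 1), C (φ.coeff (d - (j : ℕ))) * X j

theorem eval_lf (d : ℕ) (φ : Polynomial ℂ) (y : Fin (d + 1) → ℂ) :
    eval y (lf d φ) = fn d y φ := by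
  rw [lf, map_sum, fn_apply]
  exact Finset.sum_congr rfl fun j _ => by simp [mul_comm]

theorem aeval_lf (d : ℕ) (φ : Polynomial ℂ) (x v : Fin (d + 1) → ℂ) :
    aeval (fun i => Polynomial.C (x i) + Polynomial.C (v i) * Polynomial.X) (lf d φ) =
      Polynomial.C (fn d x φ) + Polynomial.C (fn d v φ) * Polynomial.X := by
  rw [lf, map_sum, fn_apply, fn_apply, map_sum, map_sum, Finset.sum_mul,
    ← Finset.sum_add_distrib]
  refine Finset.sum_congr rfl fun j _ => ?_
  simp only [map_mul, algHom_C, aeval_X, Polynomial.algebraMap_eq]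
  ring

/-- the `3 × 3` Hankel-type determinant attached to three polynomials of degree `≤ d - 2` -/
def hdet (d : ℕ) (a b c : Polynomial ℂ) : MvPolynomial (Fin (d + 1)) ℂ :=
  lf d (Polynomial.X ^ 2 * a) * (lf d (Polynomial.X ^ 1 * b) * lf d (Polynomial.X ^ 0 * c) -
      lf d (Polynomial.X ^ 0 * b) * lf d (Polynomial.X ^ 1 * c)) -
    lf d (Polynomial.X ^ 1 * a) * (lf d (Polynomial.X ^ 2 * b) * lf d (Polynomial.X ^ 0 * c) -
      lf d (Polynomial.X ^ 0 * b) * lf d (Polynomial.X ^ 2 * c)) +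
    lf d (Polynomial.X ^ 0 * a) * (lf d (Polynomial.X ^ 2 * b) * lf d (Polynomial.X ^ 1 * c) -
      lf d (Polynomial.X ^ 1 * b) * lf d (Polynomial.X ^ 2 * c))

theorem fn_pw_X_pow (d m : ℕ) (hm : m ≤ d) (z w : ℂ) :
    fn d (pw d z w) (Polynomial.X ^ m) = z ^ m * w ^ (d - m) := by
  have h := fn_X_pow d (pw d z w) ⟨d - m, by omega⟩
  have h1 : d - (d - m) = m := by omega
  simp only [h1] at h
  rw [h]
  simp only [pw, h1]

theorem fn_pw (d k : ℕ) (hd : 2 ≤ d) (hk : k ≤ 2) (z w : ℂ) (ν : Polynomial ℂ)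
    (hν : ν.natDegree ≤ d - 2) :
    fn d (pw d z w) (Polynomial.X ^ k * ν) =
      z ^ k * w ^ (2 - k) * ∑ e ∈ Finset.range (d - 1), ν.coeff e * (z ^ e * w ^ (d - 2 - e)) := by
  have h1 : ν = ∑ e ∈ Finset.range (d - 1), Polynomial.C (ν.coeff e) * Polynomial.X ^ e :=
    Polynomial.as_sum_range_C_mul_X_pow' ν (by omega)
  conv_lhs => rw [h1]
  rw [Finset.mul_sum, map_sum, Finset.mul_sum]
  refine Finset.sum_congr rfl fun e he => ?_
  have he' : e < d - 1 := Finset.mem_range.mp he
  rw [show (Polynomial.X ^ k * (Polynomial.C (ν.coeff e) * Polynomial.X ^ e) : Polynomial ℂ) =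
    (ν.coeff e) • Polynomial.X ^ (e + k) by rw [Polynomial.smul_eq_C_mul, pow_add]; ring]
  rw [map_smul, fn_pw_X_pow d (e + k) (by omega), smul_eq_mul,
    show d - (e + k) = (2 - k) + (d - 2 - e) by omega, pow_add, pow_add]
  ring

theorem hdet_vanishes (d : ℕ) (hd : 2 ≤ d) (a b c : Polynomial ℂ) (ha : a.natDegree ≤ d - 2)
    (hb : b.natDegree ≤ d - 2) (hc : c.natDegree ≤ d - 2) : Vanishes (secY d) (hdet d a b c) := by
  rintro y ⟨z, w, z', w', rfl⟩
  simp only [hdet, map_add, map_sub, map_mul, eval_lf, fn_add]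
  rw [fn_pw d 2 hd (by norm_num) z w a ha, fn_pw d 1 hd (by norm_num) z w a ha,
    fn_pw d 0 hd (by norm_num) z w a ha, fn_pw d 2 hd (by norm_num) z w b hb,
    fn_pw d 1 hd (by norm_num) z w b hb, fn_pw d 0 hd (by norm_num) z w b hb,
    fn_pw d 2 hd (by norm_num) z w c hc, fn_pw d 1 hd (by norm_num) z w c hc,
    fn_pw d 0 hd (by norm_num) z w c hc,
    fn_pw d 2 hd (by norm_num) z' w' a ha, fn_pw d 1 hd (by norm_num) z' w' a ha,
    fn_pw d 0 hd (by norm_num) z' w' a ha, fn_pw d 2 hd (by norm_num) z' w' b hb,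
    fn_pw d 1 hd (by norm_num) z' w' b hb, fn_pw d 0 hd (by norm_num) z' w' b hb,
    fn_pw d 2 hd (by norm_num) z' w' c hc, fn_pw d 1 hd (by norm_num) z' w' c hc,
    fn_pw d 0 hd (by norm_num) z' w' c hc]
  simp only [pow_zero, pow_one, one_mul, mul_one, show 2 - 2 = 0 from rfl,
    show 2 - 1 = 1 from rfl, show 2 - 0 = 2 from rfl]
  ring

/-- the differential of the determinant at a point annihilating the first row -/
theorem hdet_diff (d : ℕ) (a b c : Polynomial ℂ) (x v : Fin (d + 1) → ℂ)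
    (h : ∀ k ≤ 2, fn d x (Polynomial.X ^ k * a) = 0) :
    ∑ i, eval x (pderiv i (hdet d a b c)) * v i =
      fn d v (Polynomial.X ^ 2 * a) * (fn d x (Polynomial.X ^ 1 * b) *
        fn d x (Polynomial.X ^ 0 * c) - fn d x (Polynomial.X ^ 0 * b) *
        fn d x (Polynomial.X ^ 1 * c)) -
      fn d v (Polynomial.X ^ 1 * a) * (fn d x (Polynomial.X ^ 2 * b) *
        fn d x (Polynomial.X ^ 0 * c) - fn d x (Polynomial.X ^ 0 * b) *
        fn d x (Polynomial.X ^ 2 * c)) +
      fn d v (Polynomial.X ^ 0 * a) * (fn d x (Polynomial.X ^ 2 * b) *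
        fn d x (Polynomial.X ^ 1 * c) - fn d x (Polynomial.X ^ 1 * b) *
        fn d x (Polynomial.X ^ 2 * c)) := by
  rw [differential_eq]
  simp only [hdet, map_add, map_sub, map_mul, aeval_lf, h 2 le_rfl, h 1 (by norm_num),
    h 0 (by norm_num)]
  simp only [Polynomial.derivative_mul, Polynomial.derivative_add, Polynomial.derivative_sub,
    Polynomial.derivative_C, Polynomial.derivative_X, Polynomial.eval_add, Polynomial.eval_mul,
    Polynomial.eval_sub, Polynomial.eval_C, Polynomial.eval_X, Polynomial.eval_zero,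
    Polynomial.eval_one]
  ring

end Multi

/-! ## Upper bound -/

section Uni

open Polynomial

theorem tangent_kills (d : ℕ) (hd : 4 ≤ d) (s t α β : ℂ) (hst : s ≠ t) (hα : α ≠ 0) (hβ : β ≠ 0)
    (v : Fin (d + 1) → ℂ)
    (hv : v ∈ tangentSpace (zclosure (secY d)) (α • mom d 0 s + β • mom d 0 t))
    (q : ℂ[X]) (hq : q.natDegree ≤ d - 4) :
    fn d v ((X - C s) ^ 2 * (X - C t) ^ 2 * q) = 0 := by
  set x := α • mom d 0 s + β • mom d 0 t with hx
  set a : ℂ[X] := (X - C s) * (X - C t) * q with ha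
  set b : ℂ[X] := X - C t with hb
  set c : ℂ[X] := X - C s with hc
  have hda : a.natDegree ≤ d - 2 := by
    refine natDegree_mul_le.trans ?_
    have : ((X - C s) * (X - C t) : ℂ[X]).natDegree ≤ 2 := by compute_degree
    omega
  have hdb : b.natDegree ≤ d - 2 := by
    rw [hb, natDegree_X_sub_C]; omega
  have hdc : c.natDegree ≤ d - 2 := by
    rw [hc, natDegree_X_sub_C]; omega
  have hfx : ∀ φ : ℂ[X], φ.natDegree ≤ d - 2 → ∀ k ≤ 2, fn d x (X ^ k * φ) =
      α * (s ^ k * φ.eval s) + β * (t ^ k * φ.eval t) := by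
    intro φ hφ k hk
    have h1 : (X ^ k * φ : ℂ[X]).natDegree ≤ d := by
      refine natDegree_mul_le.trans ?_
      rw [natDegree_X_pow]; omega
    rw [hx, fn_add, fn_smul, fn_smul, fn_mom_zero d _ _ h1, fn_mom_zero d _ _ h1]
    simp
  have hz : ∀ k ≤ 2, fn d x (X ^ k * a) = 0 := by
    intro k hk
    rw [hfx a hda k hk, ha]
    simp [hb, hc]
  have h0 := hv (hdet d a b c) (fun y hy => by
    exact hy _ (hdet_vanishes d (by omega) a b c hda hdb hdc))
  rw [hdet_diff d a b c x v hz, hfx b hdb 0 (by norm_num), hfx b hdb 1 (by norm_num),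
    hfx b hdb 2 le_rfl, hfx c hdc 0 (by norm_num), hfx c hdc 1 (by norm_num),
    hfx c hdc 2 le_rfl] at h0
  have e1 : b.eval s = s - t := by simp [hb]
  have e2 : b.eval t = 0 := by simp [hb]
  have e3 : c.eval s = 0 := by simp [hc]
  have e4 : c.eval t = t - s := by simp [hc]
  rw [e1, e2, e3, e4] at h0
  have hlin : fn d v ((X - C s) ^ 2 * (X - C t) ^ 2 * q) = fn d v (X ^ 2 * a) -
      (s + t) * fn d v (X ^ 1 * a) + s * t * fn d v (X ^ 0 * a) := by
    have : (X - C s) ^ 2 * (X - C t) ^ 2 * q = X ^ 2 * a - (s + t) • (X ^ 1 * a) +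
        (s * t) • (X ^ 0 * a) := by
      rw [smul_eq_C_mul, smul_eq_C_mul, C_add, C_mul, ha]
      ring
    rw [this, map_add, map_sub, map_smul, map_smul, smul_eq_mul, smul_eq_mul]
  rw [hlin]
  have hne : α * β * (s - t) ^ 2 * (t - s) ≠ 0 := by
    have h1 : s - t ≠ 0 := sub_ne_zero.mpr hst
    have h2 : t - s ≠ 0 := sub_ne_zero.mpr hst.symm
    positivity
  apply mul_left_cancel₀ hne
  rw [mul_zero]
  linear_combination h0

/-- Hermite basis polynomial: value at `s` -/
def hermA (s t : ℂ) : ℂ[X] :=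
  C ((s - t) ^ 2)⁻¹ * ((X - C t) ^ 2 * (1 - C (2 / (s - t)) * (X - C s)))

/-- Hermite basis polynomial: derivative at `s` -/
def hermB (s t : ℂ) : ℂ[X] :=
  C ((s - t) ^ 2)⁻¹ * ((X - C t) ^ 2 * (X - C s))

theorem hermA_natDegree (s t : ℂ) : (hermA s t).natDegree ≤ 3 := by
  unfold hermA; compute_degree

theorem hermB_natDegree (s t : ℂ) : (hermB s t).natDegree ≤ 3 := by
  unfold hermB; compute_degree

theorem hermA_eval_same (s t : ℂ) (h : s ≠ t) : (hermA s t).eval s = 1 := by
  have h1 : s - t ≠ 0 := sub_ne_zero.mpr h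
  simp [hermA, h1]

theorem hermA_eval_other (s t : ℂ) : (hermA s t).eval t = 0 := by
  simp [hermA]

theorem hermA_deriv_same (s t : ℂ) (h : s ≠ t) : (derivative (hermA s t)).eval s = 0 := by
  have h1 : s - t ≠ 0 := sub_ne_zero.mpr h
  simp [hermA, derivative_pow]
  right
  field_simp
  ring

theorem hermA_deriv_other (s t : ℂ) : (derivative (hermA s t)).eval t = 0 := by
  simp [hermA, derivative_pow]

theorem hermB_eval_same (s t : ℂ) : (hermB s t).eval s = 0 := by
  simp [hermB]

theorem hermB_eval_other (s t : ℂ) : (hermB s t).eval t = 0 := by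
  simp [hermB]

theorem hermB_deriv_same (s t : ℂ) (h : s ≠ t) : (derivative (hermB s t)).eval s = 1 := by
  have h1 : s - t ≠ 0 := sub_ne_zero.mpr h
  simp [hermB, derivative_pow, h1]

theorem hermB_deriv_other (s t : ℂ) : (derivative (hermB s t)).eval t = 0 := by
  simp [hermB, derivative_pow]

/-- a double root gives a square factor -/
theorem sq_dvd (s : ℂ) (φ : ℂ[X]) (h0 : φ.eval s = 0) (h1 : (derivative φ).eval s = 0) :
    (X - C s) ^ 2 ∣ φ := by
  obtain ⟨ψ, rfl⟩ := dvd_iff_isRoot.mpr h0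
  have h2 : ψ.eval s = 0 := by
    simpa [derivative_mul] using h1
  obtain ⟨χ, rfl⟩ := dvd_iff_isRoot.mpr h2
  exact ⟨χ, by ring⟩

theorem coprime_sq (s t : ℂ) (h : s ≠ t) :
    IsCoprime ((X - C s) ^ 2 : ℂ[X]) ((X - C t) ^ 2) :=
  (isCoprime_X_sub_C_of_isUnit_sub (sub_ne_zero.mpr h).isUnit).pow

/-- **Upper bound.** -/
theorem tangent_le (d : ℕ) (hd : 4 ≤ d) (s t α β : ℂ) (hst : s ≠ t) (hα : α ≠ 0) (hβ : β ≠ 0)
    (v : Fin (d + 1) → ℂ)
    (hv : v ∈ tangentSpace (zclosure (secY d)) (α • mom d 0 s + β • mom d 0 t)) :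
    v = fn d v (hermA s t) • mom d 0 s + fn d v (hermB s t) • mom d 1 s +
      fn d v (hermA t s) • mom d 0 t + fn d v (hermB t s) • mom d 1 t := by
  apply fn_ext
  intro φ hφ
  simp only [fn_add, fn_smul]
  rw [fn_mom_zero d _ _ hφ, fn_mom_zero d _ _ hφ, fn_mom_one d _ _ hφ, fn_mom_one d _ _ hφ]
  set r : ℂ[X] := φ - (C (φ.eval s) * hermA s t + C ((derivative φ).eval s) * hermB s t +
    C (φ.eval t) * hermA t s + C ((derivative φ).eval t) * hermB t s) with hr
  have r1 : r.eval s = 0 := by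
    simp [hr, hermA_eval_same s t hst, hermB_eval_same, hermA_eval_other, hermB_eval_other]
  have r2 : r.eval t = 0 := by
    simp [hr, hermA_eval_same t s hst.symm, hermB_eval_same, hermA_eval_other, hermB_eval_other]
  have r3 : (derivative r).eval s = 0 := by
    simp [hr, hermA_deriv_same s t hst, hermB_deriv_same s t hst, hermA_deriv_other,
      hermB_deriv_other]
  have r4 : (derivative r).eval t = 0 := by
    simp [hr, hermA_deriv_same t s hst.symm, hermB_deriv_same t s hst.symm, hermA_deriv_other,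
      hermB_deriv_other]
  have hC : ∀ (a : ℂ) (p : ℂ[X]), p.natDegree ≤ 3 → (C a * p).natDegree ≤ d := fun a p hp =>
    (natDegree_C_mul_le a p).trans (hp.trans (by omega))
  have hdeg : r.natDegree ≤ d := by
    rw [hr]
    refine (natDegree_sub_le _ _).trans (max_le hφ ?_)
    refine (natDegree_add_le _ _).trans (max_le ?_ (hC _ _ (hermB_natDegree _ _)))
    refine (natDegree_add_le _ _).trans (max_le ?_ (hC _ _ (hermA_natDegree _ _)))
    exact (natDegree_add_le _ _).trans (max_le (hC _ _ (hermA_natDegree _ _))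
      (hC _ _ (hermB_natDegree _ _)))
  obtain ⟨q, hq⟩ := (coprime_sq s t hst).mul_dvd (sq_dvd s r r1 r3) (sq_dvd t r r2 r4)
  have hqd : q.natDegree ≤ d - 4 := by
    by_cases hq0 : q = 0
    · simp [hq0]
    · have hG : ((X - C s) ^ 2 * (X - C t) ^ 2 : ℂ[X]).Monic :=
        ((monic_X_sub_C s).pow 2).mul ((monic_X_sub_C t).pow 2)
      have hGd : ((X - C s) ^ 2 * (X - C t) ^ 2 : ℂ[X]).natDegree = 4 := by
        rw [((monic_X_sub_C s).pow 2).natDegree_mul ((monic_X_sub_C t).pow 2),
          natDegree_pow, natDegree_pow, natDegree_X_sub_C, natDegree_X_sub_C]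
      have := hG.natDegree_mul' hq0
      rw [← hq, hGd] at this
      omega
  have hkill : fn d v r = 0 := by
    rw [hq]; exact tangent_kills d hd s t α β hst hα hβ v hv q hqd
  have hexp : fn d v r = fn d v φ - (φ.eval s * fn d v (hermA s t) +
      (derivative φ).eval s * fn d v (hermB s t) + φ.eval t * fn d v (hermA t s) +
      (derivative φ).eval t * fn d v (hermB t s)) := by
    rw [hr, ← smul_eq_C_mul, ← smul_eq_C_mul, ← smul_eq_C_mul, ← smul_eq_C_mul]
    simp only [map_sub, map_add, map_smul, smul_eq_mul]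
  rw [hexp] at hkill
  linear_combination hkill

/-! ## Lower bound -/

theorem mom_zero_mem (d : ℕ) (hd : 1 ≤ d) (s t α β : ℂ) (hα : α ≠ 0) :
    mom d 0 s ∈ tangentSpace (zclosure (secY d)) (α • mom d 0 s + β • mom d 0 t) := by
  have h := curve_tangent (secY d)
    (fun i => C (α * mom d 0 s i) * (1 + X) + C (β * mom d 0 t i)) (by
      intro e
      convert smul_add_smul_mem d hd (α * (1 + e)) β s t using 1
      funext i
      simp
      ring)
  have e1 : (fun i => (C (α * mom d 0 s i) * (1 + X) + C (β * mom d 0 t i) : ℂ[X]).eval 0) =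
      α • mom d 0 s + β • mom d 0 t := by
    funext i; simp
  have e2 : (fun i => (derivative
      (C (α * mom d 0 s i) * (1 + X) + C (β * mom d 0 t i) : ℂ[X])).eval 0) =
      α • mom d 0 s := by
    funext i; simp
  rw [e1, e2] at h
  exact (Submodule.smul_mem_iff _ hα).mp h

theorem mom_one_mem (d : ℕ) (hd : 1 ≤ d) (s t α β : ℂ) (hα : α ≠ 0) :
    mom d 1 s ∈ tangentSpace (zclosure (secY d)) (α • mom d 0 s + β • mom d 0 t) := by
  have h := curve_tangent (secY d)
    (fun i => C α * (C s + X) ^ (d - (i : ℕ)) + C (β * mom d 0 t i)) (by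
      intro e
      convert smul_add_smul_mem d hd α β (s + e) t using 1
      funext i
      simp [mom])
  have e1 : (fun i : Fin (d + 1) => (C α * (C s + X) ^ (d - (i : ℕ)) +
      C (β * mom d 0 t i) : ℂ[X]).eval 0) = α • mom d 0 s + β • mom d 0 t := by
    funext i; simp [mom]
  have e2 : (fun i : Fin (d + 1) => (derivative
      (C α * (C s + X) ^ (d - (i : ℕ)) + C (β * mom d 0 t i) : ℂ[X])).eval 0) =
      α • mom d 1 s := by
    funext i; simp [mom, derivative_pow]
  rw [e1, e2] at h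
  exact (Submodule.smul_mem_iff _ hα).mp h

theorem mem_closure (d : ℕ) (hd : 1 ≤ d) (s t α β : ℂ) :
    (α • mom d 0 s + β • mom d 0 t) ∈ zclosure (secY d) :=
  fun _ hF => hF _ (smul_add_smul_mem d hd α β s t)

theorem tangent_eq (d : ℕ) (hd : 4 ≤ d) (s t α β : ℂ) (hst : s ≠ t) (hα : α ≠ 0) (hβ : β ≠ 0) :
    tangentSpace (zclosure (secY d)) (α • mom d 0 s + β • mom d 0 t) =
      Submodule.span ℂ {mom d 0 s, mom d 1 s, mom d 0 t, mom d 1 t} := by
  apply le_antisymm
  · intro v hv
    rw [tangent_le d hd s t α β hst hα hβ v hv]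
    refine Submodule.add_mem _ (Submodule.add_mem _ (Submodule.add_mem _ ?_ ?_) ?_) ?_ <;>
    · apply Submodule.smul_mem
      apply Submodule.subset_span
      simp
  · rw [Submodule.span_le]
    have h1 : 1 ≤ d := by omega
    rintro v (rfl | rfl | rfl | rfl)
    · exact mom_zero_mem d h1 s t α β hα
    · exact mom_one_mem d h1 s t α β hα
    · have := mom_zero_mem d h1 t s β α hβ
      rwa [show β • mom d 0 t + α • mom d 0 s = α • mom d 0 s + β • mom d 0 t from
        add_comm _ _] at this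
    · have := mom_one_mem d h1 t s β α hβ
      rwa [show β • mom d 0 t + α • mom d 0 s = α • mom d 0 s + β • mom d 0 t from
        add_comm _ _] at this

theorem four_indep (d : ℕ) (hd : 4 ≤ d) (s t : ℂ) (hst : s ≠ t) :
    LinearIndependent ℂ ![mom d 0 s, mom d 1 s, mom d 0 t, mom d 1 t] := by
  rw [Fintype.linearIndependent_iff]
  intro g hg
  have hA : ∀ a b : ℂ, (hermA a b).natDegree ≤ d := fun a b =>
    (hermA_natDegree a b).trans (by omega)
  have hB : ∀ a b : ℂ, (hermB a b).natDegree ≤ d := fun a b =>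
    (hermB_natDegree a b).trans (by omega)
  simp only [Fin.sum_univ_four, Matrix.cons_val_zero, Matrix.cons_val_one, Matrix.cons_val] at hg
  have key : ∀ φ : ℂ[X], φ.natDegree ≤ d → g 0 * φ.eval s + g 1 * (derivative φ).eval s +
      g 2 * φ.eval t + g 3 * (derivative φ).eval t = 0 := by
    intro φ hφ
    have := congrArg (fun y => fn d y φ) hg
    simp only [fn_add, fn_smul] at this
    rw [fn_mom_zero d _ _ hφ, fn_mom_zero d _ _ hφ, fn_mom_one d _ _ hφ,
      fn_mom_one d _ _ hφ] at this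
    rw [this, fn_apply]
    simp
  have k0 := key (hermA s t) (hA s t)
  have k1 := key (hermB s t) (hB s t)
  have k2 := key (hermA t s) (hA t s)
  have k3 := key (hermB t s) (hB t s)
  rw [hermA_eval_same s t hst, hermA_deriv_same s t hst, hermA_eval_other,
    hermA_deriv_other] at k0
  rw [hermB_eval_same, hermB_deriv_same s t hst, hermB_eval_other, hermB_deriv_other] at k1
  rw [hermA_eval_same t s hst.symm, hermA_deriv_same t s hst.symm, hermA_eval_other,
    hermA_deriv_other] at k2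
  rw [hermB_eval_same, hermB_deriv_same t s hst.symm, hermB_eval_other,
    hermB_deriv_other] at k3
  intro i
  fin_cases i
  · simpa using k0
  · simpa using k1
  · simpa using k2
  · simpa using k3

theorem tangent_finrank (d : ℕ) (hd : 4 ≤ d) (s t α β : ℂ) (hst : s ≠ t) (hα : α ≠ 0)
    (hβ : β ≠ 0) :
    Module.finrank ℂ
      (tangentSpace (zclosure (secY d)) (α • mom d 0 s + β • mom d 0 t)) = 4 := by
  rw [tangent_eq d hd s t α β hst hα hβ]
  have h := finrank_span_eq_card (four_indep d hd s t hst)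
  rw [Fintype.card_fin] at h
  have e : Set.range ![mom d 0 s, mom d 1 s, mom d 0 t, mom d 1 t] =
      {mom d 0 s, mom d 1 s, mom d 0 t, mom d 1 t} := by
    ext v
    simp [Matrix.range_cons, Matrix.range_empty]
    tauto
  rw [e] at h
  exact h

/-- **Module G1.** -/
theorem tangentTwo_statement : TangentTwoStatement := by
  intro d hd s t α β hst hα hβ
  exact ⟨mem_closure d (by omega) s t α β, tangent_eq d hd s t α β hst hα hβ,
    tangent_finrank d hd s t α β hst hα hβ⟩

end Uni

end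

end Helper92_ED
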