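import Pool.Agent.Helper92_ED.Fn

/-!
# Module U1: uniqueness of the decomposition
-/

namespace Helper92_ED

open Helper73_ED Polynomial

noncomputable section

theorem natDegree_three (a b c : ℂ) :
    ((X - C a) * (X - C b) * (X - C c) : ℂ[X]).natDegree ≤ 3 := by
  compute_degree

/-- one of the nodes on the left is a node on the right -/
theorem node_mem (d : ℕ) (hd : 3 ≤ d) (s t s' t' α β α' β' : ℂ) (hst : s ≠ t) (hα : α ≠ 0)
    (h : α • mom d 0 s + β • mom d 0 t = α' • mom d 0 s' + β' • mom d 0 t') :
    s = s' ∨ s = t' := by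
  by_contra hcon
  push Not at hcon
  obtain ⟨h1, h2⟩ := hcon
  set φ : ℂ[X] := (X - C t) * (X - C s') * (X - C t') with hφ
  have hdeg : φ.natDegree ≤ d := (natDegree_three t s' t').trans hd
  have := congrArg (fun y => fn d y φ) h
  simp only [fn_add, fn_smul, fn_mom_zero d _ φ hdeg] at this
  have ht : φ.eval t = 0 := by simp [hφ]
  have hs' : φ.eval s' = 0 := by simp [hφ]
  have ht' : φ.eval t' = 0 := by simp [hφ]
  have hs : φ.eval s = (s - t) * (s - s') * (s - t') := by simp [hφ]
  rw [ht, hs', ht', hs] at this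
  have h3 : α * ((s - t) * (s - s') * (s - t')) = 0 := by linear_combination this
  rcases mul_eq_zero.mp h3 with h4 | h4
  · exact hα h4
  · rcases mul_eq_zero.mp h4 with h5 | h5
    · rcases mul_eq_zero.mp h5 with h6 | h6
      · exact hst (sub_eq_zero.mp h6)
      · exact h1 (sub_eq_zero.mp h6)
    · exact h2 (sub_eq_zero.mp h5)

theorem coeffs_eq (d : ℕ) (hd : 3 ≤ d) (s t α β α' β' : ℂ) (hst : s ≠ t)
    (h : α • mom d 0 s + β • mom d 0 t = α' • mom d 0 s + β' • mom d 0 t) :
    α = α' ∧ β = β' := by
  have key : ∀ a : ℂ, α * (s - a) + β * (t - a) = α' * (s - a) + β' * (t - a) := by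
    intro a
    have hdeg : (X - C a : ℂ[X]).natDegree ≤ d := by
      rw [natDegree_X_sub_C]; omega
    have := congrArg (fun y => fn d y (X - C a)) h
    simpa only [fn_add, fn_smul, fn_mom_zero d _ _ hdeg, eval_sub, eval_X, eval_C] using this
  have h1 := key t
  have h2 := key s
  constructor
  · have : (α - α') * (s - t) = 0 := by linear_combination h1
    rcases mul_eq_zero.mp this with h3 | h3
    · exact sub_eq_zero.mp h3
    · exact absurd (sub_eq_zero.mp h3) hst
  · have : (β - β') * (t - s) = 0 := by linear_combination h2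
    rcases mul_eq_zero.mp this with h3 | h3
    · exact sub_eq_zero.mp h3
    · exact absurd (sub_eq_zero.mp h3).symm hst

/-- **Module U1.** -/
theorem unique_statement : UniqueStatement := by
  intro d hd s t s' t' α β α' β' hst hst' hα hβ hα' hβ' h
  have hs := node_mem d hd s t s' t' α β α' β' hst hα h
  have ht := node_mem d hd t s s' t' β α α' β' hst.symm hβ (by
    rw [← h]; exact add_comm _ _)
  rcases hs with hs | hs <;> rcases ht with ht | ht
  · exact absurd (hs.trans ht.symm) hst
  · subst hs ht
    left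
    exact ⟨rfl, rfl, coeffs_eq d hd s t α β α' β' hst h⟩
  · subst hs ht
    right
    refine ⟨rfl, rfl, ?_⟩
    exact coeffs_eq d hd s t α β β' α' hst (by
      rw [h]; exact add_comm _ _)
  · exact absurd (hs.trans ht.symm) hst

end

end Helper92_ED
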